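import Mathlib

set_option autoImplicit false

open scoped Pointwise

namespace Pool.Agent.Helper85.Herm

/-- `ℂ²` identified with `ℝ⁴`, coordinates `(Re z₁, Im z₁, Re z₂, Im z₂)`. -/
abbrev C2 : Type := EuclideanSpace ℝ (Fin 4)

/-- nonempty compact convex subsets of `ℂ²` -/
abbrev Body : Type := ConvexBody C2

/-- Multiplication by `i`. -/
noncomputable def J (x : C2) : C2 := WithLp.toLp 2 ![-x 1, x 0, -x 3, x 2]

/-- The Kähler form `ω(x, y) = ⟪i x, y⟫`. -/
noncomputable def kahler (x y : C2) : ℝ := inner ℝ (J x) y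

/-- the underlying set of a convex body -/
def pts (K : Body) : Set C2 := K

/-- valuation property -/
def Valuation (μ : Body → ℝ) : Prop :=
  ∀ K L M I : Body, pts M = pts K ∪ pts L → pts I = pts K ∩ pts L → μ M + μ I = μ K + μ L

/-- translation invariance -/
def TranslationInvariant (μ : Body → ℝ) : Prop :=
  ∀ (K L : Body) (v : C2), pts L = (fun x => x + v) '' pts K → μ L = μ K

/-- invariance under the unitary group `U(2)` (the linear isometries commuting with `i`) -/
def UnitaryInvariant (μ : Body → ℝ) : Prop :=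
  ∀ g : C2 ≃ₗᵢ[ℝ] C2, (∀ x, g (J x) = J (g x)) →
    ∀ K L : Body, pts L = g '' pts K → μ L = μ K

/-- homogeneity of degree 2 -/
def Homogeneous2 (μ : Body → ℝ) : Prop :=
  ∀ c : ℝ, 0 ≤ c → ∀ K L : Body, pts L = (fun x => c • x) '' pts K → μ L = c ^ 2 * μ K

/-- Klain function `a sin² θ + b cos² θ`: on the real plane spanned by an orthonormal pair `e`, `f`,
of Kähler angle `θ` with `cos θ = |ω(e, f)|`, the valuation is `a sin² θ + b cos² θ` times area -/
def HasKlain (a b : ℝ) (μ : Body → ℝ) : Prop :=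
  ∀ e f : C2, ‖e‖ = 1 → ‖f‖ = 1 → inner ℝ e f = 0 → ∀ (D : Set (ℝ × ℝ)) (K : Body),
    pts K = (fun p : ℝ × ℝ => p.1 • e + p.2 • f) '' D →
    μ K = (a * (1 - |kahler e f| ^ 2) + b * |kahler e f| ^ 2) * (MeasureTheory.volume D).toReal

/-- `μ` belongs to `Val_2^{U(2)}` and has Klain function `a sin² θ + b cos² θ`. -/
structure IsHermVal (a b : ℝ) (μ : Body → ℝ) : Prop where
  valuation : Valuation μ
  continuous : Continuous μ
  translation : TranslationInvariant μ
  unitary : UnitaryInvariant μ
  homogeneous : Homogeneous2 μ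
  klain : HasKlain a b μ

/-- convex bodies of volume one -/
def UnitVolume (K : Body) : Prop := MeasureTheory.volume (pts K) = 1

end Pool.Agent.Helper85.Herm
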