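import Pool.Agent.Helper85.HermDefs

set_option autoImplicit false

open scoped Pointwise

namespace Pool.Agent.Helper85.Herm

/-- the segment `[0, v]` -/
noncomputable def seg (v : C2) : ConvexBody C2 where
  carrier := segment ℝ 0 v
  convex' := convex_segment 0 v
  isCompact' := by
    rw [segment_eq_image ℝ 0 v]
    exact isCompact_Icc.image (by fun_prop)
  nonempty' := ⟨0, left_mem_segment ℝ 0 v⟩

lemma mem_seg {v x : C2} : x ∈ seg v ↔ ∃ s : ℝ, 0 ≤ s ∧ s ≤ 1 ∧ x = s • v := by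
  change x ∈ segment ℝ 0 v ↔ _
  rw [segment_eq_image]
  constructor
  · rintro ⟨s, ⟨h0, h1⟩, rfl⟩
    exact ⟨s, h0, h1, by simp⟩
  · rintro ⟨s, h0, h1, rfl⟩
    exact ⟨s, ⟨h0, h1⟩, by simp⟩

lemma mem_add {K L : ConvexBody C2} {x : C2} : x ∈ ((K + L : ConvexBody C2) : Set C2) ↔
    ∃ k ∈ K, ∃ l ∈ L, k + l = x := by
  rw [ConvexBody.coe_add]
  exact Set.mem_add

lemma mem_add_seg {K : ConvexBody C2} {t : ℝ} (ht : 0 ≤ t) {v x : C2} :
    x ∈ ((K + t • seg v : ConvexBody C2) : Set C2) ↔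
    ∃ k ∈ K, ∃ s : ℝ, 0 ≤ s ∧ s ≤ t ∧ x = k + s • v := by
  rw [mem_add]
  constructor
  · rintro ⟨k, hk, l, hl, rfl⟩
    have hl' : l ∈ t • (seg v : Set C2) := hl
    obtain ⟨y, hy, rfl⟩ := Set.mem_smul_set.1 hl'
    obtain ⟨s, h0, h1, rfl⟩ := mem_seg.1 hy
    exact ⟨k, hk, t * s, by positivity, by nlinarith, by rw [smul_smul]⟩
  · rintro ⟨k, hk, s, h0, h1, rfl⟩
    rcases eq_or_lt_of_le ht with h | h
    · subst h
      have : s = 0 := le_antisymm h1 h0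
      subst this
      refine ⟨k, hk, 0, ?_, by simp⟩
      show (0 : C2) ∈ (0 : ℝ) • (seg v : Set C2)
      exact Set.mem_smul_set.2 ⟨0, mem_seg.2 ⟨0, le_rfl, zero_le_one, by simp⟩, by simp⟩
    · refine ⟨k, hk, s • v, ?_, rfl⟩
      show s • v ∈ t • (seg v : Set C2)
      refine Set.mem_smul_set.2 ⟨(s / t) • v, mem_seg.2 ⟨s / t, by positivity, ?_, rfl⟩, ?_⟩
      · rw [div_le_one h]; exact h1
      · rw [smul_smul]; congr 1; field_simp

/-- translate of a convex body -/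
noncomputable def trans (K : ConvexBody C2) (v : C2) : ConvexBody C2 where
  carrier := (fun x => x + v) '' (K : Set C2)
  convex' := by
    have := K.convex.translate v
    have he : (fun x : C2 => x + v) = (fun x => v + x) := by
      funext x; exact add_comm _ _
    rw [he]
    exact this
  isCompact' := K.isCompact.image (by fun_prop)
  nonempty' := K.nonempty.image _

variable {a b : ℝ} {μ : ConvexBody C2 → ℝ}

lemma val' (h : IsHermVal a b μ) : ∀ K L M I : ConvexBody C2,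
    (M : Set C2) = (K : Set C2) ∪ (L : Set C2) → (I : Set C2) = (K : Set C2) ∩ (L : Set C2) →
    μ M + μ I = μ K + μ L := h.valuation

lemma step (h : IsHermVal a b μ) (K : ConvexBody C2) (H : Submodule ℝ C2)
    (hK : (K : Set C2) ⊆ H) {v : C2} (hv : v ∉ H) :
    μ (K + (2 : ℝ) • seg v) = 2 * μ (K + (1 : ℝ) • seg v) - μ (K + (0 : ℝ) • seg v) := by
  have h0 : K + (0 : ℝ) • seg v = K := by
    apply ConvexBody.ext
    ext x
    rw [mem_add_seg le_rfl]
    constructor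
    · rintro ⟨k, hk, s, h0, h1, rfl⟩
      have : s = 0 := le_antisymm h1 h0
      subst this
      simpa using hk
    · intro hx
      exact ⟨x, hx, 0, le_rfl, le_rfl, by simp⟩
  rw [h0]
  have hT := h.translation (K + (1 : ℝ) • seg v) (trans (K + (1 : ℝ) • seg v) v) v rfl
  have hT' := h.translation K (trans K v) v rfl
  have hval := val' h (K + (1 : ℝ) • seg v) (trans (K + (1 : ℝ) • seg v) v)
    (K + (2 : ℝ) • seg v) (trans K v) ?_ ?_
  · linarith
  · ext x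
    rw [Set.mem_union, mem_add_seg (by norm_num), mem_add_seg (by norm_num)]
    constructor
    · rintro ⟨k, hk, s, h0, h1, rfl⟩
      rcases le_total s 1 with hs | hs
      · left; exact ⟨k, hk, s, h0, hs, rfl⟩
      · right
        refine ⟨k + (s - 1) • v, ?_, ?_⟩
        · rw [mem_add_seg (by norm_num)]
          exact ⟨k, hk, s - 1, by linarith, by linarith, rfl⟩
        · show k + (s - 1) • v + v = k + s • v
          rw [sub_smul, one_smul]; abel
    · rintro (⟨k, hk, s, h0, h1, rfl⟩ | ⟨y, hy, rfl⟩)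
      · exact ⟨k, hk, s, h0, by linarith, rfl⟩
      · rw [mem_add_seg (by norm_num)] at hy
        obtain ⟨k, hk, s, h0, h1, rfl⟩ := hy
        refine ⟨k, hk, s + 1, by linarith, by linarith, ?_⟩
        show k + s • v + v = _
        rw [add_smul, one_smul]; abel
  · ext x
    constructor
    · rintro ⟨k, hk, rfl⟩
      refine ⟨?_, ?_⟩
      · rw [mem_add_seg (by norm_num)]
        exact ⟨k, hk, 1, by norm_num, le_rfl, by simp⟩
      · refine ⟨k, ?_, rfl⟩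
        rw [mem_add_seg (by norm_num)]
        exact ⟨k, hk, 0, le_rfl, by norm_num, by simp⟩
    · rintro ⟨hx, hx'⟩
      rw [mem_add_seg (by norm_num)] at hx
      obtain ⟨k, hk, s, h0, h1, rfl⟩ := hx
      obtain ⟨y, hy, hy'⟩ := hx'
      rw [mem_add_seg (by norm_num)] at hy
      obtain ⟨k', hk', s', h0', h1', rfl⟩ := hy
      have hy'' : k' + s' • v + v = k + s • v := hy'
      have hd : (s' + 1 - s) • v = k - k' := by
        rw [sub_smul, add_smul, one_smul]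
        have : k = k' + s' • v + v - s • v := by rw [hy'']; abel
        rw [this]; abel
      have hmem : (s' + 1 - s) • v ∈ H := by
        rw [hd]; exact H.sub_mem (hK hk) (hK hk')
      have hs : s' + 1 - s = 0 := by
        by_contra hne
        exact hv ((H.smul_mem_iff hne).1 hmem)
      have hs0 : s' = 0 := by linarith
      have hs1 : s = 1 := by linarith
      subst hs0; subst hs1
      exact ⟨k, hk, by simp⟩

/-- the parallelotope with edges `t i • v i` -/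
noncomputable def P (v0 v1 v2 v3 : C2) (x y z w : ℝ) : ConvexBody C2 :=
  x • seg v0 + y • seg v1 + z • seg v2 + w • seg v3

lemma smul_seg_sub {H : Submodule ℝ C2} {v : C2} (hv : v ∈ H) (t : ℝ) :
    ((t • seg v : ConvexBody C2) : Set C2) ⊆ H := by
  intro x hx
  have hx' : x ∈ t • (seg v : Set C2) := hx
  obtain ⟨y, hy, rfl⟩ := Set.mem_smul_set.1 hx'
  obtain ⟨s, h0, h1, rfl⟩ := mem_seg.1 hy
  exact H.smul_mem _ (H.smul_mem _ hv)

lemma add_sub {H : Submodule ℝ C2} {K L : ConvexBody C2} (hK : (K : Set C2) ⊆ H)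
    (hL : (L : Set C2) ⊆ H) : ((K + L : ConvexBody C2) : Set C2) ⊆ H := by
  intro x hx
  obtain ⟨k, hk, l, hl, rfl⟩ := mem_add.1 hx
  exact H.add_mem (hK hk) (hL hl)

lemma mu_P (h : IsHermVal a b μ) (v : Fin 4 → C2) (hv : LinearIndependent ℝ v) :
    μ (P (v 0) (v 1) (v 2) (v 3) 1 1 1 1) =
      μ (P (v 0) (v 1) (v 2) (v 3) 1 1 0 0) + μ (P (v 0) (v 1) (v 2) (v 3) 1 0 1 0)
      + μ (P (v 0) (v 1) (v 2) (v 3) 1 0 0 1) + μ (P (v 0) (v 1) (v 2) (v 3) 0 1 1 0)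
      + μ (P (v 0) (v 1) (v 2) (v 3) 0 1 0 1) + μ (P (v 0) (v 1) (v 2) (v 3) 0 0 1 1) := by
  have hnot : ∀ i : Fin 4, v i ∉ Submodule.span ℝ (v '' {i}ᶜ) := by
    intro i
    exact hv.notMem_span_image (by simp)
  have hmem : ∀ i j : Fin 4, j ≠ i → v j ∈ Submodule.span ℝ (v '' {i}ᶜ) := by
    intro i j hij
    exact Submodule.subset_span ⟨j, by simpa using hij, rfl⟩
  set φ : ℝ → ℝ → ℝ → ℝ → ℝ := fun x y z w => μ (P (v 0) (v 1) (v 2) (v 3) x y z w) with hφ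
  have s3 : ∀ x y z, φ x y z 2 = 2 * φ x y z 1 - φ x y z 0 := by
    intro x y z
    exact step h (x • seg (v 0) + y • seg (v 1) + z • seg (v 2)) _
      (add_sub (add_sub (smul_seg_sub (hmem 3 0 (by decide)) x)
        (smul_seg_sub (hmem 3 1 (by decide)) y)) (smul_seg_sub (hmem 3 2 (by decide)) z)) (hnot 3)
  have s2 : ∀ x y w, φ x y 2 w = 2 * φ x y 1 w - φ x y 0 w := by
    intro x y w
    have e : ∀ z : ℝ, P (v 0) (v 1) (v 2) (v 3) x y z w
        = (x • seg (v 0) + y • seg (v 1) + w • seg (v 3)) + z • seg (v 2) := by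
      intro z; unfold P; abel
    simp only [hφ, e]
    exact step h _ _
      (add_sub (add_sub (smul_seg_sub (hmem 2 0 (by decide)) x)
        (smul_seg_sub (hmem 2 1 (by decide)) y)) (smul_seg_sub (hmem 2 3 (by decide)) w)) (hnot 2)
  have s1 : ∀ x z w, φ x 2 z w = 2 * φ x 1 z w - φ x 0 z w := by
    intro x z w
    have e : ∀ y : ℝ, P (v 0) (v 1) (v 2) (v 3) x y z w
        = (x • seg (v 0) + z • seg (v 2) + w • seg (v 3)) + y • seg (v 1) := by
      intro y; unfold P; abel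
    simp only [hφ, e]
    exact step h _ _
      (add_sub (add_sub (smul_seg_sub (hmem 1 0 (by decide)) x)
        (smul_seg_sub (hmem 1 2 (by decide)) z)) (smul_seg_sub (hmem 1 3 (by decide)) w)) (hnot 1)
  have s0 : ∀ y z w, φ 2 y z w = 2 * φ 1 y z w - φ 0 y z w := by
    intro y z w
    have e : ∀ x : ℝ, P (v 0) (v 1) (v 2) (v 3) x y z w
        = (y • seg (v 1) + z • seg (v 2) + w • seg (v 3)) + x • seg (v 0) := by
      intro x; unfold P; abel
    simp only [hφ, e]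
    exact step h _ _
      (add_sub (add_sub (smul_seg_sub (hmem 0 1 (by decide)) y)
        (smul_seg_sub (hmem 0 2 (by decide)) z)) (smul_seg_sub (hmem 0 3 (by decide)) w)) (hnot 0)
  have hh : ∀ x y z w, φ (2 * x) (2 * y) (2 * z) (2 * w) = 4 * φ x y z w := by
    intro x y z w
    have e : P (v 0) (v 1) (v 2) (v 3) (2 * x) (2 * y) (2 * z) (2 * w)
        = (2 : ℝ) • P (v 0) (v 1) (v 2) (v 3) x y z w := by
      unfold P; simp only [smul_add, mul_smul]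
    simp only [hφ, e]
    rw [h.homogeneous 2 (by norm_num) (P (v 0) (v 1) (v 2) (v 3) x y z w) _ rfl]
    norm_num
  have z0 := hh 0 0 0 0
  have z0' : φ 0 0 0 0 = 0 := by norm_num at z0; linarith
  have e1 := hh 1 0 0 0
  have e2 := hh 0 1 0 0
  have e3 := hh 0 0 1 0
  have e4 := hh 0 0 0 1
  have p1 := hh 1 1 0 0
  have p2 := hh 1 0 1 0
  have p3 := hh 1 0 0 1
  have p4 := hh 0 1 1 0
  have p5 := hh 0 1 0 1
  have p6 := hh 0 0 1 1
  have t1 := hh 1 1 1 0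
  have t2 := hh 1 1 0 1
  have t3 := hh 1 0 1 1
  have t4 := hh 0 1 1 1
  have q := hh 1 1 1 1
  simp only [mul_zero, mul_one, s0, s1, s2, s3] at e1 e2 e3 e4 p1 p2 p3 p4 p5 p6 t1 t2 t3 t4 q
  linarith

lemma pair (h : IsHermVal a b μ) {v w : C2} {A : ℝ} (hA : 0 < A)
    (hA2 : A ^ 2 = ‖v‖ ^ 2 * ‖w‖ ^ 2 - (inner ℝ v w) ^ 2) (K : ConvexBody C2)
    (hK : ∀ x, x ∈ (K : Set C2) ↔ ∃ s t : ℝ, 0 ≤ s ∧ s ≤ 1 ∧ 0 ≤ t ∧ t ≤ 1 ∧ x = s • v + t • w) :
    μ K = a * ((A ^ 2 - (kahler v w) ^ 2) / A) + b * ((kahler v w) ^ 2 / A) := by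
  have hv0 : v ≠ 0 := by
    rintro rfl
    simp at hA2
    exact hA.ne' hA2
  have hl : 0 < ‖v‖ := norm_pos_iff.2 hv0
  set l := ‖v‖ with hldef
  obtain ⟨e, he⟩ : ∃ e : C2, e = l⁻¹ • v := ⟨_, rfl⟩
  have hve : v = l • e := by rw [he, smul_smul, mul_inv_cancel₀ hl.ne', one_smul]
  have hne : ‖e‖ = 1 := by rw [he, norm_smul, norm_inv, norm_norm, inv_mul_cancel₀ hl.ne']
  set c : ℝ := inner ℝ e w with hc
  obtain ⟨w', hw'⟩ : ∃ w' : C2, w' = w - c • e := ⟨_, rfl⟩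
  have hee : inner ℝ e e = (1 : ℝ) := by
    rw [real_inner_self_eq_norm_sq, hne]; norm_num
  have hew' : inner ℝ e w' = (0 : ℝ) := by
    rw [hw', inner_sub_right, inner_smul_right, hee]; ring
  have hvw : inner ℝ v w = l * c := by
    rw [hve, inner_smul_left]; simp [hc]
  have hw : w = c • e + w' := by rw [hw']; abel
  have hnw : ‖w‖ ^ 2 = c ^ 2 + ‖w'‖ ^ 2 := by
    have h1 : inner ℝ w w = c ^ 2 + ‖w'‖ ^ 2 := by
      conv_lhs => rw [hw]
      rw [inner_add_left, inner_add_right, inner_add_right, inner_smul_left, inner_smul_right,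
        inner_smul_left, inner_smul_right, hee, hew', real_inner_comm e w', hew',
        real_inner_self_eq_norm_sq]
      simp
      ring
    rw [← real_inner_self_eq_norm_sq, h1]
  have hAl : A ^ 2 = (l * ‖w'‖) ^ 2 := by
    rw [hA2, hvw, hnw]; ring
  have hA' : A = l * ‖w'‖ := by
    have h1 : 0 ≤ l * ‖w'‖ := by positivity
    nlinarith [sq_nonneg (A - l * ‖w'‖), sq_nonneg (A + l * ‖w'‖)]
  have hl' : 0 < ‖w'‖ := by
    by_contra hcon
    have : ‖w'‖ = 0 := le_antisymm (not_lt.1 hcon) (norm_nonneg _)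
    rw [this, mul_zero] at hA'
    exact hA.ne' hA'
  set l' := ‖w'‖ with hl'def
  obtain ⟨f, hf⟩ : ∃ f : C2, f = l'⁻¹ • w' := ⟨_, rfl⟩
  have hwf : w' = l' • f := by rw [hf, smul_smul, mul_inv_cancel₀ hl'.ne', one_smul]
  have hnf : ‖f‖ = 1 := by rw [hf, norm_smul, norm_inv, norm_norm, inv_mul_cancel₀ hl'.ne']
  have hef : inner ℝ e f = (0 : ℝ) := by
    rw [hf, inner_smul_right, hew', mul_zero]
  set T : (ℝ × ℝ) →ₗ[ℝ] (ℝ × ℝ) :=
    Matrix.toLin (Module.Basis.finTwoProd ℝ) (Module.Basis.finTwoProd ℝ) !![l, c; 0, l'] with hT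
  have hTdet : LinearMap.det T = A := by
    rw [hT, LinearMap.det_toLin, Matrix.det_fin_two_of, hA']; ring
  have hTapp : ∀ x : ℝ × ℝ, T x = (l * x.1 + c * x.2, 0 * x.1 + l' * x.2) := by
    intro x; rw [hT, Matrix.toLin_finTwoProd_apply]
  have hD : (K : Set C2) = (fun p : ℝ × ℝ => p.1 • e + p.2 • f) '' (T '' (Set.Icc 0 1 ×ˢ Set.Icc 0 1)) := by
    ext x
    rw [hK]
    have key : ∀ s t : ℝ, s • v + t • w = (l * s + c * t) • e + (0 * s + l' * t) • f := by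
      intro s t
      rw [hw, hwf, hve]
      simp only [smul_add, smul_smul, add_smul]
      rw [zero_mul, zero_smul, zero_add, mul_comm s l, mul_comm t c, mul_comm t l', add_assoc]
    constructor
    · rintro ⟨s, t, h0, h1, h2, h3, rfl⟩
      refine ⟨T (s, t), ⟨(s, t), ⟨⟨h0, h1⟩, ⟨h2, h3⟩⟩, rfl⟩, ?_⟩
      rw [hTapp]
      exact (key s t).symm
    · rintro ⟨_, ⟨⟨s, t⟩, ⟨⟨h0, h1⟩, ⟨h2, h3⟩⟩, rfl⟩, rfl⟩
      refine ⟨s, t, h0, h1, h2, h3, ?_⟩
      rw [hTapp]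
      exact (key s t).symm
  have hk := h.klain e f hne hnf hef _ K hD
  have hvol : (MeasureTheory.volume (T '' (Set.Icc 0 1 ×ˢ Set.Icc 0 1) : Set (ℝ × ℝ))).toReal = A := by
    rw [MeasureTheory.Measure.addHaar_image_linearMap, hTdet, MeasureTheory.Measure.volume_eq_prod,
      MeasureTheory.Measure.prod_prod]
    simp [abs_of_pos hA, hA.le]
  rw [hvol] at hk
  have hkah : kahler v w = A * kahler e f := by
    have hJ1 : ∀ (r : ℝ) (x : C2), J (r • x) = r • J x := by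
      intro r x
      unfold J
      ext i
      fin_cases i <;> simp
    have hself : ∀ x : C2, inner ℝ (J x) x = (0 : ℝ) := by
      intro x
      unfold J
      simp [Fin.sum_univ_four, PiLp.inner_apply]
      ring
    unfold kahler
    rw [hw, hwf, hve, hJ1, inner_smul_left, inner_add_right, inner_smul_right, inner_smul_right,
      hself, hA']
    simp
    ring
  rw [hk, hkah, sq_abs]
  field_simp

lemma zero_smul_seg (v : C2) : (0 : ℝ) • seg v = 0 := by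
  apply ConvexBody.ext
  rw [ConvexBody.coe_smul, ConvexBody.coe_zero]
  exact Set.zero_smul_set ⟨0, left_mem_segment ℝ 0 v⟩

lemma mem_seg_add_seg {v w x : C2} : x ∈ ((seg v + seg w : ConvexBody C2) : Set C2) ↔
    ∃ s t : ℝ, 0 ≤ s ∧ s ≤ 1 ∧ 0 ≤ t ∧ t ≤ 1 ∧ x = s • v + t • w := by
  rw [mem_add]
  constructor
  · rintro ⟨k, hk, l, hl, rfl⟩
    obtain ⟨s, h0, h1, rfl⟩ := mem_seg.1 hk
    obtain ⟨t, h2, h3, rfl⟩ := mem_seg.1 hl
    exact ⟨s, t, h0, h1, h2, h3, rfl⟩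
  · rintro ⟨s, t, h0, h1, h2, h3, rfl⟩
    exact ⟨s • v, mem_seg.2 ⟨s, h0, h1, rfl⟩, t • w, mem_seg.2 ⟨t, h2, h3, rfl⟩, rfl⟩

/-- the value of `μ` on a parallelogram -/
noncomputable def val (a b A w : ℝ) : ℝ := a * ((A ^ 2 - w ^ 2) / A) + b * (w ^ 2 / A)

lemma mu_seg_seg (h : IsHermVal a b μ) {v w : C2} {A : ℝ} (hA : 0 < A)
    (hA2 : A ^ 2 = ‖v‖ ^ 2 * ‖w‖ ^ 2 - (inner ℝ v w) ^ 2) :
    μ (seg v + seg w) = val a b A (kahler v w) :=
  pair h hA hA2 _ (fun _ => mem_seg_add_seg)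

lemma vol_P (v : Fin 4 → C2) (hdet : |(Matrix.of fun i j => v j i).det| = 1) :
    MeasureTheory.volume ((P (v 0) (v 1) (v 2) (v 3) 1 1 1 1 : ConvexBody C2) : Set C2) = 1
    ∧ LinearIndependent ℝ v := by
  have hset : ((P (v 0) (v 1) (v 2) (v 3) 1 1 1 1 : ConvexBody C2) : Set C2) = parallelepiped v := by
    rw [parallelepiped_eq_sum_segment]
    unfold P
    simp only [one_smul, Fin.sum_univ_four]
    rfl
  have hb : |((EuclideanSpace.basisFun (Fin 4) ℝ).toBasis).det v| = 1 := by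
    rw [Module.Basis.det_apply, ← hdet]
    congr 2
  constructor
  · rw [hset, ← (EuclideanSpace.basisFun (Fin 4) ℝ).addHaar_eq_volume,
      MeasureTheory.Measure.addHaar_parallelepiped, hb]
    simp
  · have := (Module.Basis.is_basis_iff_det ((EuclideanSpace.basisFun (Fin 4) ℝ).toBasis)).2
      (show IsUnit (((EuclideanSpace.basisFun (Fin 4) ℝ).toBasis).det v) by
        rw [isUnit_iff_ne_zero]; intro h0; rw [h0] at hb; simp at hb)
    exact this.1

lemma main_formula (h : IsHermVal a b μ) (v : Fin 4 → C2)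
    (hdet : |(Matrix.of fun i j => v j i).det| = 1) (A01 A02 A03 A12 A13 A23 : ℝ)
    (h01 : 0 < A01) (h02 : 0 < A02) (h03 : 0 < A03) (h12 : 0 < A12) (h13 : 0 < A13) (h23 : 0 < A23)
    (e01 : A01 ^ 2 = ‖v 0‖ ^ 2 * ‖v 1‖ ^ 2 - (inner ℝ (v 0) (v 1)) ^ 2)
    (e02 : A02 ^ 2 = ‖v 0‖ ^ 2 * ‖v 2‖ ^ 2 - (inner ℝ (v 0) (v 2)) ^ 2)
    (e03 : A03 ^ 2 = ‖v 0‖ ^ 2 * ‖v 3‖ ^ 2 - (inner ℝ (v 0) (v 3)) ^ 2)
    (e12 : A12 ^ 2 = ‖v 1‖ ^ 2 * ‖v 2‖ ^ 2 - (inner ℝ (v 1) (v 2)) ^ 2)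
    (e13 : A13 ^ 2 = ‖v 1‖ ^ 2 * ‖v 3‖ ^ 2 - (inner ℝ (v 1) (v 3)) ^ 2)
    (e23 : A23 ^ 2 = ‖v 2‖ ^ 2 * ‖v 3‖ ^ 2 - (inner ℝ (v 2) (v 3)) ^ 2) :
    ∃ K : ConvexBody C2, MeasureTheory.volume (K : Set C2) = 1 ∧
      μ K = val a b A01 (kahler (v 0) (v 1)) + val a b A02 (kahler (v 0) (v 2))
        + val a b A03 (kahler (v 0) (v 3)) + val a b A12 (kahler (v 1) (v 2))
        + val a b A13 (kahler (v 1) (v 3)) + val a b A23 (kahler (v 2) (v 3)) := by
  obtain ⟨hvol, hli⟩ := vol_P v hdet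
  refine ⟨_, hvol, ?_⟩
  rw [mu_P h v hli]
  simp only [P, one_smul, zero_smul_seg, add_zero, zero_add]
  rw [mu_seg_seg h h01 e01, mu_seg_seg h h02 e02, mu_seg_seg h h03 e03, mu_seg_seg h h12 e12,
    mu_seg_seg h h13 e13, mu_seg_seg h h23 e23]

/-- first family -/
lemma famA (h : IsHermVal a b μ) {R c A : ℝ} (hR : 0 < R) (hc : 2 * c = R ^ 2 + (R⁻¹) ^ 2)
    (hA : 0 < A) (hA2 : A ^ 2 = (c ^ 2 + 1) / 2) :
    ∃ K : ConvexBody C2, MeasureTheory.volume (K : Set C2) = 1 ∧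
      μ K = a * (2 / c + 2 / A) + b * (2 * (c ^ 2 - 1) / c + 2 * c ^ 2 / A) := by
  have hcpos : 0 < c := by
    have : 0 < R ^ 2 := by positivity
    have : 0 < (R⁻¹) ^ 2 := by positivity
    linarith
  obtain ⟨S, hS⟩ : ∃ S : ℝ, S = R⁻¹ := ⟨_, rfl⟩
  rw [← hS] at hc
  have hRS : R * S = 1 := by rw [hS]; exact mul_inv_cancel₀ hR.ne'
  obtain ⟨q, hq0, hq⟩ : ∃ q : ℝ, 0 < q ∧ q ^ 2 = 1 / 2 :=
    ⟨Real.sqrt (1 / 2), by positivity, Real.sq_sqrt (by norm_num)⟩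
  have e1 : c ^ 2 = (R ^ 2 + S ^ 2) ^ 2 / 4 := by rw [← hc]; ring
  have hR4 : R ^ 2 * S ^ 2 = 1 := by
    calc R ^ 2 * S ^ 2 = (R * S) ^ 2 := by ring
      _ = 1 := by rw [hRS]; norm_num
  have s02 : Fin.succAbove (1 : Fin 4) (2 : Fin 3) = 3 := by decide
  have s32 : Fin.succAbove (3 : Fin 4) (2 : Fin 3) = 2 := by decide
  have key := main_formula h
    ![!₂[q * R, 0, q * S, 0], !₂[R / 2, R / 2, -(S / 2), S / 2], !₂[0, q * R, 0, -(q * S)],
      !₂[-(R / 2), R / 2, S / 2, S / 2]] ?_ A c A A c A hA hcpos hA hA hcpos hA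
      ?_ ?_ ?_ ?_ ?_ ?_
  · obtain ⟨K, hK1, hK2⟩ := key
    refine ⟨K, hK1, ?_⟩
    rw [hK2]
    simp [val, kahler, J, PiLp.inner_apply, Fin.sum_univ_four]
    have f1 : (R / 2 * (q * R) + S / 2 * (q * S)) ^ 2 = c ^ 2 / 2 := by
      linear_combination (-1 / 2) * e1 + (R ^ 2 + S ^ 2) ^ 2 / 4 * hq
    have f1' : (q * R * (R / 2) + q * S * (S / 2)) ^ 2 = c ^ 2 / 2 := by
      linear_combination (-1 / 2) * e1 + (R ^ 2 + S ^ 2) ^ 2 / 4 * hq
    have f2 : (q * R * (q * R) + -(q * S * (q * S))) ^ 2 = c ^ 2 - 1 := by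
      linear_combination -e1 - hR4 + (q ^ 2 + 1 / 2) * (R ^ 2 - S ^ 2) ^ 2 * hq
    have f3 : (R / 2 * (R / 2) + R / 2 * (R / 2) + -(S / 2 * (S / 2)) + -(S / 2 * (S / 2))) ^ 2
        = c ^ 2 - 1 := by
      linear_combination -e1 - hR4
    rw [f1, f1', f2, f3, hA2]
    field_simp
    ring
  · simp [Matrix.det_succ_row_zero, Fin.sum_univ_succ, s02, s32]
    rw [abs_eq_abs.2 (Or.inl (show _ = (1 : ℝ) by linear_combination 2 * R ^ 2 * S ^ 2 * hq + hR4))]
    norm_num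
  all_goals simp [EuclideanSpace.norm_sq_eq, PiLp.inner_apply, Fin.sum_univ_four]
  · linear_combination hA2 + (1 / 2) * e1 - (1 / 2) * hR4
      - ((R ^ 2 + S ^ 2) ^ 2 / 2 - (R ^ 2 - S ^ 2) ^ 2 / 4) * hq
  · linear_combination e1 - (q ^ 2 + 1 / 2) * (R ^ 2 + S ^ 2) ^ 2 * hq
  · linear_combination hA2 + (1 / 2) * e1 - (1 / 2) * hR4
      - ((R ^ 2 + S ^ 2) ^ 2 / 2 - (R ^ 2 - S ^ 2) ^ 2 / 4) * hq
  · linear_combination hA2 + (1 / 2) * e1 - (1 / 2) * hR4
      - ((R ^ 2 + S ^ 2) ^ 2 / 2 - (R ^ 2 - S ^ 2) ^ 2 / 4) * hq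
  · linear_combination e1
  · linear_combination hA2 + (1 / 2) * e1 - (1 / 2) * hR4
      - ((R ^ 2 + S ^ 2) ^ 2 / 2 - (R ^ 2 - S ^ 2) ^ 2 / 4) * hq

/-- second family -/
lemma famB (h : IsHermVal a b μ) {R c : ℝ} (hR : 0 < R) (hc : 2 * c = R ^ 2 + (R⁻¹) ^ 2) :
    ∃ K : ConvexBody C2, MeasureTheory.volume (K : Set C2) = 1 ∧
      μ K = a * (2 + 4 * c - 2 / c) + b * (2 / c) := by
  have hcpos : 0 < c := by
    have : 0 < R ^ 2 := by positivity
    have : 0 < (R⁻¹) ^ 2 := by positivity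
    linarith
  obtain ⟨S, hS⟩ : ∃ S : ℝ, S = R⁻¹ := ⟨_, rfl⟩
  rw [← hS] at hc
  have hRS : R * S = 1 := by rw [hS]; exact mul_inv_cancel₀ hR.ne'
  obtain ⟨q, hq0, hq⟩ : ∃ q : ℝ, 0 < q ∧ q ^ 2 = 1 / 2 :=
    ⟨Real.sqrt (1 / 2), by positivity, Real.sq_sqrt (by norm_num)⟩
  have e1 : c ^ 2 = (R ^ 2 + S ^ 2) ^ 2 / 4 := by rw [← hc]; ring
  have hqRS : q * R * (q * S) = 1 / 2 := by
    calc q * R * (q * S) = q ^ 2 * (R * S) := by ring
      _ = 1 / 2 := by rw [hq, hRS]; norm_num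
  have hqRS' : q * S * (q * R) = 1 / 2 := by rw [mul_comm]; exact hqRS
  have s02 : Fin.succAbove (1 : Fin 4) (2 : Fin 3) = 3 := by decide
  have e2 : c ^ 2 = ((q * R) ^ 2 + (q * S) ^ 2) * ((q * S) ^ 2 + (q * R) ^ 2) := by
    rw [e1, mul_pow, mul_pow, hq]; ring
  have key := main_formula h
    ![!₂[q * R, 0, 0, -(q * S)], !₂[q * R, 0, 0, q * S], !₂[0, -(q * S), q * R, 0],
      !₂[0, q * S, q * R, 0]] ?_ 1 c c c c 1 one_pos hcpos hcpos hcpos hcpos one_pos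
      ?_ ?_ ?_ ?_ ?_ ?_
  · obtain ⟨K, hK1, hK2⟩ := key
    refine ⟨K, hK1, ?_⟩
    rw [hK2]
    simp [val, kahler, J, PiLp.inner_apply, Fin.sum_univ_four]
    rw [hqRS, hqRS']
    field_simp
    ring
  · simp [Matrix.det_succ_row_zero, Fin.sum_univ_succ, s02]
    have : ∀ x : ℝ, q * S * (q * R * x) = x / 2 := by
      intro x
      calc q * S * (q * R * x) = (q * R * (q * S)) * x := by ring
        _ = x / 2 := by rw [hqRS]; ring
    simp only [hqRS]
    have e : q * R * (-(q * S * (1 / 2)) + -(q * S * (1 / 2)))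
        + -(q * R * (q * S * (1 / 2) + q * S * (1 / 2))) = -1 := by
      linear_combination -2 * hqRS
    rw [e]; norm_num
  all_goals simp [EuclideanSpace.norm_sq_eq, PiLp.inner_apply, Fin.sum_univ_four]
  · linear_combination -4 * (q * R * (q * S) + 1 / 2) * hqRS
  · exact e2
  · exact e2
  · exact e2
  · exact e2
  · linear_combination -4 * (q * R * (q * S) + 1 / 2) * hqRS

lemma exists_R {c : ℝ} (hc : 1 ≤ c) : ∃ R : ℝ, 0 < R ∧ 2 * c = R ^ 2 + (R⁻¹) ^ 2 := by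
  have h1 : 0 ≤ c ^ 2 - 1 := by nlinarith
  have h2 : Real.sqrt (c ^ 2 - 1) ^ 2 = c ^ 2 - 1 := Real.sq_sqrt h1
  have h3 : 0 < c + Real.sqrt (c ^ 2 - 1) := by positivity
  refine ⟨Real.sqrt (c + Real.sqrt (c ^ 2 - 1)), Real.sqrt_pos.2 h3, ?_⟩
  rw [inv_pow, Real.sq_sqrt h3.le]
  field_simp
  linear_combination -h2

section
variable (h : IsHermVal a b μ) (ha : 0 ≤ a) (hb : 0 ≤ b)
include h ha hb

lemma boundA {c : ℝ} (hc : 1 ≤ c) : ∃ K : ConvexBody C2, MeasureTheory.volume (K : Set C2) = 1 ∧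
    μ K ≤ 2 * (1 + Real.sqrt 2) * (a / c + b * c) := by
  obtain ⟨R, hR, hRc⟩ := exists_R hc
  have hc0 : 0 < c := by linarith
  have hA0 : 0 < Real.sqrt ((c ^ 2 + 1) / 2) := by positivity
  have hA2 : Real.sqrt ((c ^ 2 + 1) / 2) ^ 2 = (c ^ 2 + 1) / 2 := Real.sq_sqrt (by positivity)
  set A := Real.sqrt ((c ^ 2 + 1) / 2) with hA
  obtain ⟨K, hK1, hK2⟩ := famA h hR hRc hA0 hA2
  refine ⟨K, hK1, ?_⟩
  rw [hK2]
  have h2 : Real.sqrt 2 ^ 2 = 2 := Real.sq_sqrt (by norm_num)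
  have h20 : 0 < Real.sqrt 2 := by positivity
  have hcA : c ≤ Real.sqrt 2 * A := by
    have : c ^ 2 ≤ (Real.sqrt 2 * A) ^ 2 := by rw [mul_pow, h2, hA2]; linarith
    exact le_of_sq_le_sq this (by positivity)
  have hinv : 1 / A ≤ Real.sqrt 2 / c := by
    rw [div_le_div_iff₀ hA0 hc0]; linarith
  have i1 : 2 / c + 2 / A ≤ 2 * (1 + Real.sqrt 2) / c := by
    have e : 2 / A = 2 * (1 / A) := by ring
    have e' : 2 * (1 + Real.sqrt 2) / c = 2 / c + 2 * (Real.sqrt 2 / c) := by ring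
    rw [e, e']; linarith
  have i2 : 2 * (c ^ 2 - 1) / c + 2 * c ^ 2 / A ≤ 2 * (1 + Real.sqrt 2) * c := by
    have e : 2 * (c ^ 2 - 1) / c = 2 * c - 2 / c := by field_simp
    have e' : 2 * c ^ 2 / A = 2 * c ^ 2 * (1 / A) := by ring
    have e'' : 2 * c ^ 2 * (1 / A) ≤ 2 * c ^ 2 * (Real.sqrt 2 / c) :=
      mul_le_mul_of_nonneg_left hinv (by positivity)
    have e''' : 2 * c ^ 2 * (Real.sqrt 2 / c) = 2 * Real.sqrt 2 * c := by field_simp
    have : 0 < 2 / c := by positivity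
    rw [e, e']; linarith
  have j1 := mul_le_mul_of_nonneg_left i1 ha
  have j2 := mul_le_mul_of_nonneg_left i2 hb
  have e : 2 * (1 + Real.sqrt 2) * (a / c + b * c)
    = a * (2 * (1 + Real.sqrt 2) / c) + b * (2 * (1 + Real.sqrt 2) * c) := by ring
  rw [e]; linarith

set_option linter.unusedSectionVars false in
lemma boundB {c : ℝ} (hc : 1 ≤ c) : ∃ K : ConvexBody C2, MeasureTheory.volume (K : Set C2) = 1 ∧
    μ K = a * (2 + 4 * c - 2 / c) + b * (2 / c) := by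
  obtain ⟨R, hR, hRc⟩ := exists_R hc
  exact famB h hR hRc

/-- every lower bound of `μ` over the bodies of volume one is at most `4 (1 + √2) √(ab)` when
`b ≤ a`. -/
lemma lowA (hab : b ≤ a) (m : ℝ)
    (hm : ∀ K : ConvexBody C2, MeasureTheory.volume (K : Set C2) = 1 → m ≤ μ K) :
    m ≤ 4 * (1 + Real.sqrt 2) * Real.sqrt (a * b) := by
  have h2 : 0 < Real.sqrt 2 := by positivity
  have key : ∀ c : ℝ, 1 ≤ c → m ≤ 2 * (1 + Real.sqrt 2) * (a / c + b * c) := by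
    intro c hc
    obtain ⟨K, hK1, hK2⟩ := boundA h ha hb hc
    exact (hm K hK1).trans hK2
  rcases hb.eq_or_lt with hb0 | hb0
  · subst hb0
    simp only [mul_zero, Real.sqrt_zero, zero_mul, add_zero] at key ⊢
    by_contra hcon
    push Not at hcon
    have hk := key (max 1 (4 * (1 + Real.sqrt 2) * a / m)) (le_max_left _ _)
    have hx : 4 * (1 + Real.sqrt 2) * a / m ≤ max 1 (4 * (1 + Real.sqrt 2) * a / m) := le_max_right _ _
    have hx1 : 1 ≤ max 1 (4 * (1 + Real.sqrt 2) * a / m) := le_max_left _ _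
    set x := max 1 (4 * (1 + Real.sqrt 2) * a / m)
    rw [div_le_iff₀ hcon] at hx
    have hx0 : 0 < x := by linarith
    have : 2 * (1 + Real.sqrt 2) * (a / x) = (2 * (1 + Real.sqrt 2) * a) / x := by ring
    rw [this, le_div_iff₀ hx0] at hk
    nlinarith
  · have ha0 : 0 < a := by linarith
    have hs : 1 ≤ Real.sqrt (a / b) := by
      rw [Real.one_le_sqrt, one_le_div hb0]; exact hab
    have hk := key (Real.sqrt (a / b)) hs
    have e1 : a / Real.sqrt (a / b) = Real.sqrt (a * b) := by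
      rw [div_eq_iff (by positivity), ← Real.sqrt_mul (by positivity)]
      rw [show a * b * (a / b) = a ^ 2 by field_simp, Real.sqrt_sq ha]
    have e2 : b * Real.sqrt (a / b) = Real.sqrt (a * b) := by
      have : a * b = b ^ 2 * (a / b) := by field_simp
      rw [this, Real.sqrt_mul (by positivity), Real.sqrt_sq hb]
    rw [e1, e2] at hk
    linarith

/-- every lower bound of `μ` over the bodies of volume one is at most `6 √(ab)` when `a ≤ b`. -/
lemma lowB (hab : a ≤ b) (m : ℝ)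
    (hm : ∀ K : ConvexBody C2, MeasureTheory.volume (K : Set C2) = 1 → m ≤ μ K) :
    m ≤ 6 * Real.sqrt (a * b) := by
  have key : ∀ c : ℝ, 1 ≤ c → m ≤ a * (2 + 4 * c - 2 / c) + b * (2 / c) := by
    intro c hc
    obtain ⟨K, hK1, hK2⟩ := boundB h ha hb hc
    rw [← hK2]
    exact hm K hK1
  rcases ha.eq_or_lt with ha0 | ha0
  · subst ha0
    simp only [zero_mul, Real.sqrt_zero, mul_zero, zero_add] at key ⊢
    by_contra hcon
    push Not at hcon
    have hk := key (max 1 (4 * b / m)) (le_max_left _ _)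
    have hx : 4 * b / m ≤ max 1 (4 * b / m) := le_max_right _ _
    have hx1 : 1 ≤ max 1 (4 * b / m) := le_max_left _ _
    set x := max 1 (4 * b / m)
    rw [div_le_iff₀ hcon] at hx
    have hx0 : 0 < x := by linarith
    have : b * (2 / x) = (2 * b) / x := by ring
    rw [this, le_div_iff₀ hx0] at hk
    nlinarith
  · have hb0 : 0 < b := by linarith
    obtain ⟨p, hp0, hp⟩ : ∃ p : ℝ, 0 < p ∧ p ^ 2 = a := ⟨Real.sqrt a, by positivity, Real.sq_sqrt ha⟩
    obtain ⟨r, hr0, hr⟩ : ∃ r : ℝ, 0 < r ∧ r ^ 2 = b := ⟨Real.sqrt b, by positivity, Real.sq_sqrt hb⟩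
    have hsq : Real.sqrt (a * b) = p * r := by
      rw [← hp, ← hr, ← mul_pow, Real.sqrt_sq (by positivity)]
    have hpr : p ≤ r := by nlinarith
    rw [hsq]
    rcases le_total b (3 * a) with h3 | h3
    · have hk := key 1 le_rfl
      have hr2 : r ≤ 2 * p := by nlinarith
      have : (r - p) * (2 * p - r) ≥ 0 := mul_nonneg (by linarith) (by linarith)
      rw [← hp, ← hr] at hk
      nlinarith
    · -- `c = √((b - a) / (2 a))`
      obtain ⟨s, hs0, hs⟩ : ∃ s : ℝ, 0 < s ∧ s ^ 2 = b - a :=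
        ⟨Real.sqrt (b - a), Real.sqrt_pos.2 (by linarith), Real.sq_sqrt (by linarith)⟩
      obtain ⟨t, ht0, ht⟩ : ∃ t : ℝ, 0 < t ∧ t ^ 2 = 2 := ⟨Real.sqrt 2, by positivity,
        Real.sq_sqrt (by norm_num)⟩
      have hts : t * p ≤ s := by
        have : (t * p) ^ 2 ≤ s ^ 2 := by rw [mul_pow, ht, hp, hs]; linarith
        exact le_of_sq_le_sq this hs0.le
      have hc1 : 1 ≤ s / (t * p) := by rw [one_le_div (by positivity)]; exact hts
      have hk := key (s / (t * p)) hc1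
      have e1 : a * (2 + 4 * (s / (t * p)) - 2 / (s / (t * p))) + b * (2 / (s / (t * p)))
          = 2 * p ^ 2 + 4 * t * p * s := by
        have hb' : b = s ^ 2 + p ^ 2 := by rw [hs, hp]; ring
        rw [← hp, hb']
        field_simp
        ring_nf
        rw [show t ^ 2 = 2 from ht]
        ring
      rw [e1] at hk
      have hr' : r ^ 2 = s ^ 2 + p ^ 2 := by rw [hr, hs, hp]; ring
      -- Cauchy-Schwarz
      have hcs : 2 * p + 4 * t * s ≤ 6 * r := by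
        have : (2 * p + 4 * t * s) ^ 2 ≤ (6 * r) ^ 2 := by
          have h4 : (2 * p + 4 * t * s) ^ 2 = 4 * p ^ 2 + 16 * t * p * s + 16 * t ^ 2 * s ^ 2 := by ring
          have h5 : (6 * r) ^ 2 = 36 * (s ^ 2 + p ^ 2) := by rw [mul_pow, hr']; norm_num
          rw [h4, h5, ht]
          nlinarith [sq_nonneg (2 * t * p - s)]
        exact le_of_sq_le_sq this (by positivity)
      calc m ≤ 2 * p ^ 2 + 4 * t * p * s := hk
        _ = p * (2 * p + 4 * t * s) := by ring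
        _ ≤ p * (6 * r) := mul_le_mul_of_nonneg_left hcs hp0.le
        _ = 6 * (p * r) := by ring

end

lemma nonneg_of_pos (h : IsHermVal a b μ) (hpos : ∀ K, 0 ≤ μ K) : 0 ≤ a ∧ 0 ≤ b := by
  constructor
  · have h1 := mu_seg_seg h (v := !₂[1, 0, 0, 0]) (w := !₂[0, 0, 1, 0]) (A := 1) one_pos
      (by simp [EuclideanSpace.norm_sq_eq, PiLp.inner_apply, Fin.sum_univ_four])
    have h2 := hpos (seg !₂[1, 0, 0, 0] + seg !₂[0, 0, 1, 0])
    rw [h1] at h2
    simpa [val, kahler, J, PiLp.inner_apply, Fin.sum_univ_four] using h2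
  · have h1 := mu_seg_seg h (v := !₂[1, 0, 0, 0]) (w := !₂[0, 1, 0, 0]) (A := 1) one_pos
      (by simp [EuclideanSpace.norm_sq_eq, PiLp.inner_apply, Fin.sum_univ_four])
    have h2 := hpos (seg !₂[1, 0, 0, 0] + seg !₂[0, 1, 0, 0])
    rw [h1] at h2
    simpa [val, kahler, J, PiLp.inner_apply, Fin.sum_univ_four, EuclideanSpace.norm_sq_eq] using h2

theorem main (a b : ℝ) (μ : Body → ℝ) (hμ : IsHermVal a b μ) (hpos : ∀ K, 0 ≤ μ K) :
    ∃ m : ℝ, IsGLB {r | ∃ K : Body, UnitVolume K ∧ μ K = r} m ∧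
      0 ≤ m ∧ (b ≤ a → m ≤ 4 * (1 + Real.sqrt 2) * Real.sqrt (a * b)) ∧
      (a ≤ b → m ≤ 6 * Real.sqrt (a * b)) := by
  obtain ⟨ha, hb⟩ := nonneg_of_pos hμ hpos
  set S := {r | ∃ K : Body, UnitVolume K ∧ μ K = r} with hS
  obtain ⟨K0, hK0, -⟩ := boundB hμ ha hb (c := 1) le_rfl
  have hne : S.Nonempty := ⟨μ K0, K0, hK0, rfl⟩
  have hbd : BddBelow S := ⟨0, by rintro r ⟨K, -, rfl⟩; exact hpos K⟩
  have hglb := isGLB_csInf hne hbd
  have hlow : ∀ K : Body, MeasureTheory.volume (K : Set C2) = 1 → sInf S ≤ μ K :=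
    fun K hK => hglb.1 ⟨K, hK, rfl⟩
  refine ⟨sInf S, hglb, ?_, fun hab => lowA hμ ha hb hab _ hlow, fun hab => lowB hμ ha hb hab _ hlow⟩
  exact hglb.2 (by rintro r ⟨K, -, rfl⟩; exact hpos K)

end Pool.Agent.Helper85.Herm
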